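import Pool.Agent.H17.QV.Main

/-!
# Relative to a random oracle, coNE has a language that is immune for quantum verifiers

The definitions are in `Pool/Agent/H17/QM/Defs.lean` (query algorithms, random oracle, strings)
and `Pool/Agent/H17/QV/Defs.lean` (verifiers, the language `conplang`).
-/

set_option autoImplicit false

namespace Pool.Agent.Results.MP_64fb07_lc.CoNEQuantumImmune

open MeasureTheory Pool.Agent.H17.QM

/-- Let `t` be any function. With probability one over the random oracle `A`, the language
`conplang t A` is infinite, and every quantum verifier `M` of a countable family, making at most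
`C * 2 ^ t n` queries of length at most `C * 2 ^ t n` on inputs of length `n`, has the following
property: if there are infinitely many `x` for which some witness state is accepted with
probability at least `α`, then for every `β < α` there are infinitely many such `x` (with `β` in
place of `α`) outside `conplang t A`. -/
theorem result (t : ℕ → ℕ) (𝓜 : Set (List Bool → QVer (List Bool))) (hc : 𝓜.Countable)
    (hB : ∀ M ∈ 𝓜, Bounded t M) :
    ∀ᵐ A ∂(coins (List Bool)), (conplang t A).Infinite ∧
      ∀ M ∈ 𝓜, ∀ α β : ℝ, β < α → {x | (M x).Accepts (ph A) α}.Infinite →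
        {x | x ∉ conplang t A ∧ (M x).Accepts (ph A) β}.Infinite := by
  filter_upwards [conplang_infinite t, co_immune t 𝓜 hc hB] with A h1 h2
  exact ⟨h1, h2⟩

/-- The immunity: a language contained in `conplang t A` and decided (with some gap `β < α`) by
one of the verifiers is finite. -/
theorem immune (t : ℕ → ℕ) (𝓜 : Set (List Bool → QVer (List Bool))) (hc : 𝓜.Countable)
    (hB : ∀ M ∈ 𝓜, Bounded t M) :
    ∀ᵐ A ∂(coins (List Bool)), ∀ M ∈ 𝓜, ∀ α β : ℝ, β < α →
      ∀ L : Set (List Bool), (∀ x ∈ L, (M x).Accepts (ph A) α) →
        (∀ x ∉ L, ¬ (M x).Accepts (ph A) β) → L ⊆ conplang t A → L.Finite := by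
  filter_upwards [result t 𝓜 hc hB] with A hA
  intro M hM α β hαβ L h1 h2 h3
  by_contra hL
  refine hA.2 M hM α β hαβ (Set.Infinite.mono (fun x hx => h1 x hx) hL) ?_
  refine Set.finite_empty.subset fun x hx => ?_
  exact h2 x (fun hxL => hx.1 (h3 hxL)) hx.2

end Pool.Agent.Results.MP_64fb07_lc.CoNEQuantumImmune
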