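import Pool.Agent.H70.NC.All

/-!
# Collapse above a time bound, infinite alternation hierarchy on average below it

Question of MP_64fb07_lc: is NE = coNE (linear exponents)?
The theorem: whatever local information is written into an oracle at sparse keys, every level of the
alternation hierarchy can be kept hard on average for the level below, for all machines which can read few
keys. See the claim file for the two special cases `E = ESPACE` with an infinite polynomial hierarchy, and
`EXP = EXPSPACE` with an infinite linear-exponential hierarchy.
-/

set_option autoImplicit false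

namespace Pool.Agent.Results.MP_64fb07_lc.CollapseThreshold

open Filter Pool.Agent.H70.NC

/-- Let `key i` be distinct strings starting with `1`, let `F i O` depend only on the strings of the oracle
`O` shorter than `key i`, and let `M j` be countably many oracle machines (deterministic, with questions to
a `Σ_(k j)` machine, time bound `(M j).time`, advice of length `A j n`) such that for each `j` and all large
`n`: `8 n ≤ l n`, `time ^ 16 ≤ 2 ^ l n`, and
`#{i | |key i| ≤ time} + A j n + n ≤ δ j n ^ 2 * 2 ^ n` with `δ j n > 0`. Then there is an oracle `O` whose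
keys contain the answers `F i O`, such that for each `j` and all large `n`, with every advice of length at
most `A j n`, the machine `M j` agrees with the language `hard l (k j) O` (given by `k j + 1` alternating
quantifiers over strings of length `l |x|, 2 l |x|, …`) on at most `(1 / 2 + δ j n) 2 ^ n` of the inputs of
length `n`. -/
theorem result (l : ℕ → ℕ) (hl : StrictMono l) (key : ℕ → List Bool)
    (hkey : Function.Injective key) (hkey1 : ∀ i, ∃ w, key i = true :: w)
    (F : ℕ → (List Bool → Bool) → Prop)
    (hF : ∀ i O O', (∀ w : List Bool, w.length < (key i).length → O w = O' w) → (F i O ↔ F i O'))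
    (k : ℕ → ℕ) (M : ∀ j, Mach (k j)) (A : ℕ → ℕ → ℕ) (δ : ℕ → ℕ → ℝ)
    (hM : ∀ j, ∀ᶠ n : ℕ in atTop, 8 * n ≤ l n ∧ (M j).time n ^ 16 ≤ 2 ^ l n ∧ 0 < δ j n ∧
      (nkeys key ((M j).time n) : ℝ) + A j n + n ≤ δ j n ^ 2 * 2 ^ n) :
    ∃ O : List Bool → Bool, (∀ i, (O (key i) = true ↔ F i O)) ∧
      ∀ j, ∀ᶠ n : ℕ in atTop, ∀ a : List Bool, a.length ≤ A j n →
        (num l (M j) O a n : ℝ) ≤ (1 / 2 + δ j n) * 2 ^ n :=
  pf_FIN l key F hl hkey hkey1 hF k M A δ hM

end Pool.Agent.Results.MP_64fb07_lc.CollapseThreshold
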