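import Pool.Agent.H70.PX.Fin
import Pool.Agent.H70.PX.Evn

/-!
# For every k an oracle relative to which BQP contains exactly the first k levels of an infinite
polynomial hierarchy
-/

set_option autoImplicit false

namespace Pool.Agent.Results.MP_0f8dca_lc.ExactLevelsInBQP

open Pool.Agent.H6.NB Pool.Agent.H70.OQ Pool.Agent.H70.PW Pool.Agent.H70.PX

/-- Let `k ≥ 1`.

First, for every `l` the language `hlang l O` is in the level `Σ_(l+1)` relative to every oracle `O`, and
if for every even `n` exactly one string of length `n` is special, then the set of the strings of even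
length in `hlang k O` and its complement are in the level `Σ_(k+1)`.

Second, let `V 0, V 1, …` be `Σ_k` oracle machines (for instance all of them), let `W i` be a `Σ_l` oracle
machine with `l = l i ≥ k` (for instance all `Σ_l` machines for all `l ≥ k`) and let `Q 0, Q 1, …` be
families of quantum query algorithms (for instance all uniform ones of polynomial time); on inputs of
length `n` the family `Q j` makes at most `C * 2 ^ ((1/2 - ε) * n)` queries of length at most `n ^ c + c`.
Then there is an oracle `O` such that

* all languages of the machines `V i` relative to `O` are decided with error at most `1/3` by the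
explicit polynomial-time quantum algorithm with acceptance probability `yesProb`;
* for every even `n` exactly one `u` of length `n` is special, which means
`∀ v₁ ∃ v₂ ∀ v₃ … Q v_k` (with `|v_j| = 2 ^ j * n`) the oracle contains (`k` odd) or does not contain (`k` even)
the string `0 u v₁ ⋯ v_k`;
* every `Q j` errs for infinitely many even `n` on the input `0ⁿ` with respect to `hlang k O`;
* every `W i` errs for infinitely many `n` on the input `0ⁿ` with respect to `hlang (l i) O`.

So relative to `O` the polynomial hierarchy is infinite and `BQP` contains `Σ_k`, but not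
`Σ_(k+1) ∩ Π_(k+1)`. -/
theorem result (k : ℕ) (hk : 1 ≤ k) :
    (∀ l : ℕ, ∃ F : Machine (l + 1), ∀ O, F.lang O = hlang l O) ∧
    (∃ E E' : Machine (k + 1), ∀ O, OneSpecialE k O →
      E.lang O = {x | x ∈ hlang k O ∧ Even x.length} ∧ E'.lang O = (E.lang O)ᶜ) ∧
    ∀ (V : ℕ → Machine k) (Q : ℕ → List Bool → QAlg) (l : ℕ → ℕ) (W : ∀ i, Machine (l i)),
      (∀ i, k ≤ l i) →
      (∀ j, ∃ (c C : ℕ) (ε : ℝ), 0 < ε ∧ ∀ x : List Bool, (Q j x).Short (x.length ^ c + c) ∧
        ((Q j x).T : ℝ) ≤ C * 2 ^ ((1 / 2 - ε) * x.length)) →
      ∃ O : List Bool → Bool,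
        (∀ i x, (x ∈ (V i).lang O → 2 / 3 ≤ yesProb O (inst (V i).c i x)) ∧
          (x ∉ (V i).lang O → yesProb O (inst (V i).c i x) ≤ 1 / 3)) ∧
        OneSpecialE k O ∧
        (∀ j m, ∃ n ≥ m, Even n ∧
          ¬ Correct (Q j (List.replicate n false)) O (hlang k O) (List.replicate n false)) ∧
        ∀ i m, ∃ n ≥ m, ¬ (List.replicate n false ∈ (W i).lang O ↔
          List.replicate n false ∈ hlang (l i) O) :=
  ⟨fun l => ⟨machh l, hlm l⟩, evn_compl k, fun V Q l W hl hQ => exact_levels k hk V Q l W hl hQ⟩

end Pool.Agent.Results.MP_0f8dca_lc.ExactLevelsInBQP
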