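import Pool.Agent.H70.EI.All

/-!
# An oracle relative to which alternating exponential time is contained in BQP and the polynomial hierarchy
is infinite
-/

set_option autoImplicit false

namespace Pool.Agent.Results.MP_0f8dca_lc.ExpHierarchyInBQP

open Pool.Agent.H6.NB Pool.Agent.H70.OQ Pool.Agent.H70.EH Pool.Agent.H70.EI

/-- Let `V 0, V 1, …` be alternating oracle machines with arbitrary time bounds `(V i).time` and arbitrary
numbers `(V i).alt` of alternating quantifiers, and let `W 0, W 1, …` be machines of the levels `k ≥ 1` of
the polynomial hierarchy (`(W j).2` is a `Σ_k` machine, `k = (W j).1 + 1`). Then there is an oracle `O` such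
that

* for all `i` and all inputs `x` the quantum algorithm with acceptance probability `yes O (home (V i) i x)`
decides with error probability at most `1/3` whether the machine `V i` accepts `x` relative to `O`. Its
running time is polynomial in `|x|`, `i`, the number of alternations and the logarithm of the time bound of
`V i`; so relative to `O` alternating exponential time, even with polynomially many alternations, is
contained in `BQP`;
* for all `j` the language of the `Σ_k` machine `(W j).2` relative to `O` is different from the language
`plang k O`, which is in `Σ_(k+1)` relative to `O`; so the polynomial hierarchy relative to `O` is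
infinite. -/
theorem result (V : ℕ → ATM) (W : ℕ → (k : ℕ) × Machine (k + 1)) : ∃ O : List Bool → Bool,
    (∀ i x, (x ∈ (V i).lang O → 2 / 3 ≤ yes O (home (V i) i x)) ∧
      (x ∉ (V i).lang O → yes O (home (V i) i x) ≤ 1 / 3)) ∧
    ∀ j, (W j).2.lang O ≠ plang ((W j).1 + 1) O :=
  pf_FI2 V W

end Pool.Agent.Results.MP_0f8dca_lc.ExpHierarchyInBQP
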