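import Pool.Agent.H70.PW.All

/-!
# For every k an oracle relative to which Σ_k is contained in BQP but Δ_(k+2) is not contained in PP
-/

set_option autoImplicit false

namespace Pool.Agent.Results.MP_0f8dca_lc.HierarchyNotInPP

open Filter Pool.Agent.H6.NB Pool.Agent.H70.OQ Pool.Agent.H70.PW

open Classical in
/-- Let `k ≥ 1`.

First, the language `lastlang k O` is in the level `Δ_(k+2)` of the polynomial hierarchy relative to every
oracle `O`: there are one `Σ_(k+1)` oracle machine `W` and for every `x` a decision tree `T x` which makes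
at most `|x|` adaptive queries of length at most `|x|`, such that, for every `O`, the tree `T x` with the
language of `W` relative to `O` as its oracle decides whether `x` belongs to `lastlang k O`.

Second, let `V 0, V 1, …` be `Σ_k` oracle machines (for instance all of them) and let `R 0, R 1, …` be
families of probabilistic algorithms with unbounded error (for instance all `PP` machines); on inputs of
length `n` the family `R j` tosses at most `C * 2 ^ (n / 16)` coins and makes at most `C * 2 ^ (n / 16)`
queries of length at most `C * 2 ^ (n / 16)`. Then there is an oracle `O` such that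

* all languages of the machines `V i` relative to `O` are decided with error at most `1/3` by the
explicit polynomial-time quantum algorithm with acceptance probability `yesProb`;
* every `R j` errs for infinitely many `n` on the input `0ⁿ` with respect to `lastlang k O`. -/
theorem result (k : ℕ) (hk : 1 ≤ k) :
    (∃ (W : Machine (k + 1)) (T : List Bool → DT),
      (∀ x, (T x).depth ≤ x.length ∧ (T x).Short x.length) ∧
      ∀ (O : List Bool → Bool) (x : List Bool), (x ∈ lastlang k O ↔
        (T x).eval (fun y => decide (y ∈ W.lang O)) = true)) ∧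
    ∀ (V : ℕ → Machine k) (R : ℕ → List Bool → PAlg),
      (∀ j, ∃ C : ℕ, ∀ x : List Bool, (R j x).Small (C * 2 ^ (x.length / 16))) →
      ∃ O : List Bool → Bool,
        (∀ i x, (x ∈ (V i).lang O → 2 / 3 ≤ yesProb O (inst (V i).c i x)) ∧
          (x ∉ (V i).lang O → yesProb O (inst (V i).c i x) ≤ 1 / 3)) ∧
        ∀ j m, ∃ n ≥ m, ¬ ((R j (List.replicate n false)).Acc O ↔
          List.replicate n false ∈ lastlang k O) := by
  obtain ⟨k, rfl⟩ : ∃ k', k = k' + 1 := ⟨k - 1, by omega⟩
  refine ⟨?_, fun V R hR => ?_⟩
  · obtain ⟨W, hW⟩ := pf_GLM (k + 1)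
    obtain ⟨T, hT, hT2⟩ := pf_BSR
    refine ⟨W, T, hT, fun O x => ?_⟩
    rw [hW O]
    exact hT2 (k + 1) O x
  · obtain ⟨prog, hs, hp⟩ := pf_UNG (k + 1) V
    have hA : LocA (acck (k + 1) prog) := pf_LAK (k + 1) prog hs
    obtain ⟨σ, O, hB, hD, hE⟩ := pf_LIM (acck (k + 1) prog) (List Bool) (fun s σ => Dec σ s)
      (fun j n O => ¬ ((R j (List.replicate n false)).Acc O ↔
        List.replicate n false ∈ lastlang (k + 1) O)) hA
      (fun s => by
        obtain ⟨l, hl⟩ := Pool.Agent.H6.NB.pf_DCC s
        exact ⟨l, fun σ σ' h => (hl σ σ' h).1⟩)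
      (by
        obtain ⟨σ, hσ, -⟩ := pf_ING (k + 1)
        exact ⟨σ, hσ⟩)
      (fun j => by
        obtain ⟨C, hC⟩ := hR j
        refine Eventually.frequently ?_
        filter_upwards [pf_SGP k C prog hs] with n hn σ₀ hσ
        have h0 : (R j (List.replicate n false)).Small (C * 2 ^ (n / 16)) := by
          simpa using hC (List.replicate n false)
        obtain ⟨σ, m, h1, h2, -, h4⟩ := hn _ h0 σ₀ hσ
        exact ⟨σ, m, h1, h2, h4⟩)
    refine ⟨O, fun i x => ?_, hE⟩
    have h1 := pf_YEG (acck (k + 1) prog) σ O (inst (V i).c i x) hB (hD _)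
    exact ⟨fun hx => h1.1 ((hp i x O).1 hx), fun hx => h1.2 fun ha => hx ((hp i x O).2 ha)⟩

end Pool.Agent.Results.MP_0f8dca_lc.HierarchyNotInPP
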