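import Pool.Agent.H70.OQ.All

/-!
# For every k an oracle relative to which Σ_k is contained in BQP but Σ_(k+1) ∩ Π_(k+1) is not
-/

set_option autoImplicit false

namespace Pool.Agent.Results.MP_0f8dca_lc.LevelEasyNextLevelHard

open Pool.Agent.H6.NB Pool.Agent.H70.OQ

/-- Let `k ≥ 1`, let `V 0, V 1, …` be `Σ_k` oracle machines (for instance all of them) and let
`Q 0, Q 1, …` be families of quantum query algorithms (for instance all uniform ones of polynomial time);
on inputs of length `n` the family `Q j` makes at most `C * 2 ^ ((1/2 - ε) * n)` queries of length at most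
`n ^ c + c`. Then there is an oracle `O` such that

* all languages of the machines `V i` relative to `O` are decided with error at most `1/3` by the
explicit polynomial-time quantum algorithm with acceptance probability `yesProb`;
* for every `n` exactly one `u` of length `n` is special, which means
`∀ v₁ ∃ v₂ ∀ v₃ … Q v_k` (with `|v_j| = 2 ^ j * n`) the oracle contains (`k` odd) or does not contain (`k` even)
the string `0 u v₁ ⋯ v_k` (so the language `hlang k O`, which asks whether the first bit of this `u` is
`1`, and its complement are in the level `Σ_(k+1)` of the polynomial hierarchy relative to `O`, even with a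
unique outermost witness);
* every `Q j` errs for infinitely many `n` on the input `0ⁿ` with respect to `hlang k O`. -/
theorem result (k : ℕ) (hk : 1 ≤ k) (V : ℕ → Machine k) (Q : ℕ → List Bool → QAlg)
    (h : ∀ j, ∃ (c C : ℕ) (ε : ℝ), 0 < ε ∧ ∀ x : List Bool, (Q j x).Short (x.length ^ c + c) ∧
      ((Q j x).T : ℝ) ≤ C * 2 ^ ((1 / 2 - ε) * x.length)) :
    ∃ O : List Bool → Bool,
      (∀ i x, (x ∈ (V i).lang O → 2 / 3 ≤ yesProb O (inst (V i).c i x)) ∧
        (x ∉ (V i).lang O → yesProb O (inst (V i).c i x) ≤ 1 / 3)) ∧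
      OneSpecial k O ∧
      ∀ j m, ∃ n ≥ m,
        ¬ Correct (Q j (List.replicate n false)) O (hlang k O) (List.replicate n false) := by
  obtain ⟨k, rfl⟩ : ∃ k', k = k' + 1 := ⟨k - 1, by omega⟩
  obtain ⟨prog, hs, hp⟩ := pf_UNG (k + 1) V
  obtain ⟨σ, O, hB, hD, hR, hE⟩ := pf_FNG k prog hs Q h
  refine ⟨O, fun i x => ?_, hR, hE⟩
  have h1 := pf_YEG (acck (k + 1) prog) σ O (inst (V i).c i x) hB (hD _)
  exact ⟨fun hx => h1.1 ((hp i x O).1 hx), fun hx => h1.2 fun ha => hx ((hp i x O).2 ha)⟩

end Pool.Agent.Results.MP_0f8dca_lc.LevelEasyNextLevelHard
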