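import Pool.Agent.H18.Pur.Search

/-!
# MP_0f8dca_lc: quantum speed-up of exhaustive search is limited by the purity of the memory
-/

namespace Pool.Agent.H70.Old.PurityLimitsSpeedup

open Matrix Pool.Agent.H18.Pur
open scoped ComplexOrder

/-- The advantage of a quantum memory of purity `κ` in exhaustive search is exactly `√κ` up to
constants.

A classical computer controls a quantum memory with basis states `n` (program tree `P` with at
most `c` classical and `q` quantum queries per path, arbitrary instruments). Suppose that at every
quantum query the largest eigenvalue of the conditional memory state is at most `κ / A`, where `A`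
is the number of addressed basis states; this is automatic if `κ` is the dimension `|n|`, and if
all channels are unital and the largest eigenvalue of the initial state is at most `κ / |n|`.
Lower bound: flipping `f` on disjoint blocks changes the acceptance probabilities by at most
`c + 2 √(min κ b) q` in total.
Upper bound: among `L K` items the memory `K × w` finds a marked one with `10 L` classical and
`5 L √K` quantum queries, with `κ = K`, from every initial state. -/
theorem result :
    (∀ (X n : Type) [DecidableEq X] [Fintype n] [DecidableEq n] (P : Prog X n) (c q : ℕ),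
      P.Valid → P.Uses c q → ∀ (κ : ℝ) (f : X → Bool) (ρ : Mem n), ρ.PosSemidef → ρ.trace = 1 →
      (P.PurityLE κ f ρ ∨ κ = Fintype.card n ∨
        (P.Unital ∧ ((κ : ℂ) • (1 : Mem n) - (Fintype.card n : ℂ) • ρ).PosSemidef)) →
      ∀ (b : ℕ) (B : Fin b → Finset X), (Pairwise fun i j => Disjoint (B i) (B j)) →
      ∑ j, |P.accept (flipOn f (B j)) ρ - P.accept f ρ| ≤ c + 2 * √(min κ b) * q) ∧
    (∀ L K w : ℕ, 0 < L → 0 < K → 0 < w → ∃ P : Prog (Fin L × Fin K) (Fin K × Fin w),
      P.Valid ∧ P.Uses (10 * L) (5 * L * Nat.sqrt K) ∧
      ∀ ρ : Mem (Fin K × Fin w), ρ.PosSemidef → ρ.trace = 1 →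
        (∀ f, P.PurityLE K f ρ) ∧ P.accept (fun _ => false) ρ = 0 ∧
        ∀ f : Fin L × Fin K → Bool, (∃ x, f x = true) → 2 / 3 ≤ P.accept f ρ) := by
  refine ⟨?_, ?_⟩
  · intro X n _ _ _ P c q hP hu κ f ρ hρ htr hpur b B hB
    have hpur' : P.PurityLE κ f ρ := by
      rcases hpur with h | h | ⟨hU, h⟩
      · exact h
      · rw [h]
        exact purity_le_card P f hρ
      · refine purity_of_unital P hP hU f κ hρ ?_
        rw [htr]
        simpa using h
    have h := main_le P hP c q hu f B hB κ hρ hpur'
    rw [htr] at h
    simpa [fac] using h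
  · intro L K w hL hK hw
    have : NeZero L := ⟨hL.ne'⟩
    have : NeZero K := ⟨hK.ne'⟩
    have : NeZero w := ⟨hw.ne'⟩
    refine ⟨search L K w (5 * L), search_valid _, ?_, ?_⟩
    · have h := search_uses (L := L) (K := K) (w := w) (5 * L)
      have e : 2 * (5 * L) = 10 * L := by ring
      rwa [e] at h
    · intro ρ hρ htr
      refine ⟨fun f => search_purity _ f ρ hρ, search_none _ ρ, fun f hf => ?_⟩
      have h := search_some (w := w) f hf ρ (by rw [htr]; simp)
      rw [htr] at h
      simpa using h

end Pool.Agent.H70.Old.PurityLimitsSpeedup
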